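import Mathlib

set_option autoImplicit false

namespace Pool.Agent.Results.MP_95765a_co.AllDigraphs

open Finset

/-- Every finite loopless digraph has an arc-binding set-indexer attaining equality in `(*)` on
every arc. -/
theorem result (V : Type) [Fintype V] (A : V → V → Prop) (hA : ∀ v, ¬ A v v) :
    ∃ (X : Type) (_ : Fintype X) (_ : DecidableEq X) (_ : Nonempty X) (f : V → Finset X),
      Function.Injective f ∧
      (∀ u v u' v', A u v → A u' v' → f u \ f v = f u' \ f v' → u = u' ∧ v = v') ∧
      ∀ u v, A u v → #(f u \ f v) < #(f v) ∧ #(f u \ f v) = min #(f u) (#(f v) - 1) := by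
  classical
  let f : V → Finset (Option (Sym2 V)) := fun u => univ.image fun w => some s(u, w)
  have hm : ∀ u a b, some s(a, b) ∈ f u ↔ u = a ∨ u = b := fun u a b => by
    simp only [f, mem_image, mem_univ, true_and, Option.some.injEq, Sym2.eq_iff]
    constructor
    · rintro ⟨w, h | h⟩
      exacts [.inl h.1, .inr h.1]
    · rintro (h | h)
      exacts [⟨b, .inl ⟨h, rfl⟩⟩, ⟨a, .inr ⟨h, rfl⟩⟩]
  have hc : ∀ u, #(f u) = Fintype.card V := fun u =>
    (card_image_of_injective _ fun a b h => Sym2.congr_right.1 (Option.some.inj h)).trans card_univ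
  refine ⟨Option (Sym2 V), inferInstance, inferInstance, inferInstance, f, fun u v h => ?_,
    fun u v u' v' h h' e => ?_, fun u v h => ?_⟩
  · have := (hm u u u).2 (.inl rfl)
    rw [h, hm, or_self] at this
    exact this.symm
  · have n : u ≠ v := fun e => hA u (e ▸ h)
    have k : ∀ w, some s(u, w) ∈ f u \ f v ↔ some s(u, w) ∈ f u' \ f v' := fun w => by rw [e]
    simp only [mem_sdiff, hm, true_or, true_and, not_or] at k
    obtain rfl : u' = u := by simpa [n.symm] using ((k u).1 ⟨n.symm, n.symm⟩).1
    refine ⟨rfl, ?_⟩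
    by_contra c
    exact ((k v').1 ⟨n.symm, c⟩).2.2 rfl
  · have n : u ≠ v := fun e => hA u (e ▸ h)
    have e : f u \ f v = (f u).erase (some s(u, v)) := by
      ext x
      simp only [mem_sdiff, mem_erase]
      rw [and_comm]
      refine and_congr_left fun hx => not_congr ?_
      obtain ⟨w, -, rfl⟩ := mem_image.1 hx
      rw [hm, Option.some.injEq, Sym2.congr_right]
      simp [n.symm, eq_comm]
    have := Fintype.card_pos_iff.2 ⟨u⟩
    rw [e, card_erase_of_mem ((hm u u v).2 (.inl rfl)), hc, hc]
    omega

end Pool.Agent.Results.MP_95765a_co.AllDigraphs
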